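import Mathlib

set_option autoImplicit false

namespace Pool.Agent.Results.MP_527a81_lc.No

open Filter

/-- initial segment -/
def pr (p : ℕ → ℕ) (k : ℕ) : List ℕ := (List.range k).map p

/-- The functional with set of rules `W` sends `p` to the point `q`. -/
def Maps (W : List ℕ × ℕ × ℕ → Prop) (p q : ℕ → ℕ) : Prop := ∀ n v, (∃ k, W (pr p k, n, v)) ↔ q n = v

/-- join -/
def jn (p q : ℕ → ℕ) (n : ℕ) : ℕ := if n % 2 = 0 then p (n / 2) else q (n / 2)

/-- `h` is the characteristic function of an infinite set -/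
def Inf (h : ℕ → ℕ) : Prop := (∀ n, h n ≤ 1) ∧ {n | h n = 1}.Infinite

/-- 2-bounded colourings of pairs -/
def Bdd (c : ℕ → ℕ) : Prop := ∀ i, {z : ℕ × ℕ | z.1 < z.2 ∧ c (Nat.pair z.1 z.2) = i}.encard ≤ 2

def Rainbow (c h : ℕ → ℕ) : Prop :=
  Inf h ∧ Set.InjOn (fun z : ℕ × ℕ => c (Nat.pair z.1 z.2)) {z | z.1 < z.2 ∧ h z.1 = 1 ∧ h z.2 = 1}

def Thin (c h : ℕ → ℕ) : Prop := Inf h ∧ ∃ n, ∀ x y, x ≠ y → h x = 1 → h y = 1 → c (x + y) ≠ n

theorem ext (c h : ℕ → ℕ) (s : ℕ) (b : ∀ n, h n ≤ 1) : ∃ g, Thin c g ∧ ∀ n < s, g n = h n := by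
  classical
  let U := hyperfilter ℕ
  have u : ∀ (f : ℕ → ℕ) i j, (∃ᶠ y in U, f y = i) → (∃ᶠ y in U, f y = j) → i = j := fun f i j a b =>
    let ⟨_, a, b⟩ := (a.and_eventually (Ultrafilter.frequently_iff_eventually.1 b)).exists
    a.symm.trans b
  have v : ∀ f : ℕ → ℕ, ∃ i, ∀ j ≠ i, ∀ᶠ y in U, f y ≠ j := fun f => by
    by_cases a : ∃ i, ∃ᶠ y in U, f y = i
    · exact a.imp fun i a j b => not_frequently.1 fun k => b (u f j i k a)
    · exact ⟨0, fun j _ => not_frequently.1 fun k => a ⟨j, k⟩⟩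
  choose l v using v
  obtain ⟨n, a⟩ := Infinite.exists_notMem_finset (insert (l fun x => l fun y => c (x + y))
    ((Finset.range s).image (fun x => l fun y => c (x + y)) ∪ (Finset.range (2 * s)).image c))
  simp only [Finset.mem_insert, Finset.mem_union, Finset.mem_image, Finset.mem_range, not_or, not_exists, not_and] at a
  have w : ∀ x, ∀ᶠ y in U, x < y := fun x => (eventually_gt_atTop x).filter_mono Nat.hyperfilter_le_atTop
  obtain ⟨f, g, r⟩ := exists_seq_of_forall_finset_exists (fun y => (l fun z => c (y + z)) ≠ n ∧ s < y ∧ ∀ x < s, c (x + y) ≠ n)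
    (fun x y => x < y ∧ c (x + y) ≠ n) fun t k => (((v _ n a.1).and ((w s).and ((eventually_all_finite (Set.finite_Iio s)).2 fun x o =>
      v _ n fun m => a.2.1 x o m.symm))).and ((eventually_all_finset t).2 fun x o => (w x).and (v _ n (k x o).1.symm))).exists
  have m : StrictMono f := fun _ _ h => (r _ _ h).1
  have k : ∀ x y, x < y → (if x < s then h x else if x ∈ Set.range f then 1 else 0) = 1 →
      (if y < s then h y else if y ∈ Set.range f then 1 else 0) = 1 → c (x + y) ≠ n := fun x y o p q => by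
    by_cases d : y < s
    · exact a.2.2 _ (by omega)
    obtain ⟨y, rfl⟩ : y ∈ Set.range f := by simpa [d] using q
    by_cases e : x < s
    · exact (g y).2.2 x e
    obtain ⟨x, rfl⟩ : x ∈ Set.range f := by simpa [e] using p
    exact (r _ _ (m.lt_iff_lt.1 o)).2
  refine ⟨fun x => if x < s then h x else if x ∈ Set.range f then 1 else 0, ⟨⟨fun x => by dsimp only; split_ifs <;> simp [b],
    (Set.infinite_range_of_injective m.injective).mono ?_⟩, n, fun x y o p q => ?_⟩, fun n o => if_pos o⟩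
  · rintro _ ⟨x, rfl⟩
    simp [(g x).2.1.not_gt]
  · exact o.lt_or_gt.elim (fun o => k x y o p q) fun o => add_comm x y ▸ k y x o q p

theorem result : ¬∃ Φ Ψ, REPred Φ ∧ REPred Ψ ∧
    ∀ c, Bdd c → ∃ x, Maps Φ c x ∧ ∀ h, Thin x h → ∃ y, Rainbow c y ∧ Maps Ψ (jn c h) y := fun ⟨Φ, Ψ, _, _, H⟩ => by
  have t : ∀ c : ℕ → ℕ, (∀ i, ∃ u v, ∀ n, c n = i → n = u ∨ n = v) → Bdd c := fun c a i => by
    obtain ⟨u, v, a⟩ := a i
    refine (Set.encard_le_encard (t := {u.unpair, v.unpair}) fun z b => ?_).trans ((Set.encard_insert_le ..).trans (by simp; rfl))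
    exact (a _ b.2).imp (fun k => by simp [← k]) fun k => by simp [← k]
  obtain ⟨x, -, a⟩ := H id (t _ fun i => ⟨i, i, fun _ => .inl⟩)
  obtain ⟨h, b, -⟩ := ext x 0 0 (by simp)
  obtain ⟨y, ⟨⟨-, c⟩, -⟩, d⟩ := a h b
  obtain ⟨u, e⟩ := c.nonempty
  obtain ⟨v, f, g⟩ := c.exists_gt u
  obtain ⟨k, e⟩ := (d u 1).2 e
  obtain ⟨l, f⟩ := (d v 1).2 f
  let c : ℕ → ℕ := fun n => if n.unpair.1 = v ∧ k + l ≤ n.unpair.2 then Nat.pair u n.unpair.2 else n
  obtain ⟨x', -, a⟩ := H c (t _ fun i => ⟨i, Nat.pair v i.unpair.2, fun n m => by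
    simp only [c] at m
    split_ifs at m with o
    · exact .inr (by rw [← m, ← o.1]; simp)
    · exact .inl m⟩)
  obtain ⟨h', b, m⟩ := ext x' h (k + l) b.1.1
  obtain ⟨y', ⟨⟨-, o⟩, q⟩, r⟩ := a h' b
  have s : ∀ j ≤ k + l, pr (jn c h') j = pr (jn id h) j := fun j s => List.map_congr_left fun i w => by
    have := List.mem_range.1 w
    have := (i / 2).unpair_right_le
    simp only [jn, c, id]
    rw [m _ (by omega), if_neg (c := _ ∧ _) (by omega)]
  obtain ⟨z, o, w⟩ := o.exists_gt (v + (k + l))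
  have := q (x₁ := (u, z)) (x₂ := (v, z)) ⟨by simp only; omega, (r u 1).1 ⟨k, s k (by omega) ▸ e⟩, o⟩
    ⟨by simp only; omega, (r v 1).1 ⟨l, s l (by omega) ▸ f⟩, o⟩ (by simp [c, g.ne, show k + l ≤ z by omega])
  simp [g.ne] at this

end Pool.Agent.Results.MP_527a81_lc.No
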